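import Pool.Agent.N213.GF.G
import Pool.Agent.N625.DY.G

/-!
# Prime tuples whose shifts are given by random fields of digits on arbitrary graphs of positions

The asymptotic formula of Hardy and Littlewood for almost all tuples of shifts, when the shifts are independent random
integers whose digits form Markov random fields on arbitrary graphs of bounded degree.

Definitions used: `Pool.Agent.H373R2.T7.singZ a z`: the partial product over the primes `p ≤ z` of
`(1 - ν(p) / p) / (1 - 1 / p) ^ (s + 1)`, where `ν(p)` is the number of `r < p` for which `p` divides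
`r (r + a 1) ... (r + a s)`; `Pool.Agent.H373R2.T7.tupleCount a N`: the sum of
`log p * ∏ i, log (p + a i)` over the primes `p ≤ N` for which all `p + a i` are primes;
`Pool.Agent.H373R2.T7.Admissible a`: for every prime `p` there is an `r` such that `p` divides neither
`r` nor any `r + a i`; `Pool.Agent.H560R3.GB.primeTuples a N`: the number of primes `p ≤ N` for which
all `p + a i` are primes.

Method: exponential sums over the integers whose digits form a Markov random field: averages over separated neighbourhoods
in the graph. The passage from one random shift to prime tuples is from the starting files (`Pool.Agent.W93`,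
`Pool.Agent.TH890`), from `Pool.Agent.N469.PT.Ws` (helper469) and from `Pool.Agent.N625.DY.G` (helper625).

Examples of random fields, proved in `Pool.Agent.N213.GF.E` and `Pool.Agent.N213.GF.F`: the uniform distribution on the
solutions of local constraints with flexible digits on a graph of positions with degrees at most `Δ`, with `η = 1 / b ^ (Δ + 1)`
(`unif_field`); in particular the integers whose nonzero digits form an independent set of the graph (`indep_local`), and,
for `b ≥ Δ + 2`, the integers whose digits are a proper colouring of the graph (`colour_local`).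
-/

set_option autoImplicit false

namespace Pool.Agent.Results.MP_68a45e_nt.RandomFieldShifts

open Finset Pool.Agent.H560R3.GB
open Pool.Agent.H373R2.T7 (singZ tupleCount Admissible)

/-- The digit of `v` at the position `i` in base `b` (the position `0` is the least significant one). -/
def dig (b v i : ℕ) : ℕ := v / b ^ i % b

/-- The integer which has the digits of `v` at the positions in `S` and the digits of `w` at the other positions below `k`. -/
def splice (b k : ℕ) (S : Finset ℕ) (v w : ℕ) : ℕ := ∑ i ∈ range k, (if i ∈ S then dig b v i else dig b w i) * b ^ i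

/-- `v` and `w` have the same digits outside the set `S` of positions. -/
def Off (b : ℕ) (S : Finset ℕ) (v w : ℕ) : Prop := ∀ i, i ∉ S → dig b v i = dig b w i

open Classical in
/-- The closed neighbourhood of the position `i` in the graph `A` on the positions `0, …, k - 1`. -/
noncomputable def nb (k : ℕ) (A : ℕ → ℕ → Prop) (i : ℕ) : Finset ℕ := (range k).filter fun j => j = i ∨ A i j

open Classical in
/-- The total weight of the integers below `b ^ k` which have the same digits as `v` outside `S`. -/
noncomputable def mass (b k : ℕ) (p : ℕ → ℝ) (S : Finset ℕ) (v : ℕ) : ℝ :=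
  ∑ w ∈ (range (b ^ k)).filter (fun w => Off b S w v), p w

/-- The digits of a random integer `v < b ^ k` (with the probabilities `p v`) form a Markov random field on a graph `A` of
positions with degrees at most `Δ` (the Markov property: for every set `S` of positions and all `v`, `w` which have the same
digits at the positions outside `S` adjacent to `S`, the product `p v * p w` does not change if `v` and `w` exchange their
digits in `S`), and each digit is flexible: for every `v` with `p v ≠ 0` and every position `i`, there are `x` and `y` which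
have the same digits as `v` outside the closed neighbourhood of `i`, which differ from each other exactly at the position
`i`, and whose conditional probabilities, given the digits outside this neighbourhood, are at least `η`. -/
structure Field (b k Δ : ℕ) (η : ℝ) (A : ℕ → ℕ → Prop) (p : ℕ → ℝ) : Prop where
  symm : ∀ i j, A i j → A j i
  degree : ∀ i < k, (nb k A i).card ≤ Δ + 1
  nonneg : ∀ v, 0 ≤ p v
  sum : ∑ v ∈ range (b ^ k), p v = 1
  markov : ∀ S : Finset ℕ, ∀ v < b ^ k, ∀ w < b ^ k, (∀ i ∈ S, ∀ j < k, j ∉ S → A i j → dig b v j = dig b w j) →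
    p v * p w = p (splice b k S v w) * p (splice b k S w v)
  flexible : ∀ v < b ^ k, p v ≠ 0 → ∀ i < k, ∃ x < b ^ k, ∃ y < b ^ k, Off b (nb k A i) x v ∧ Off b {i} y x ∧
    dig b y i ≠ dig b x i ∧ η * mass b k p (nb k A i) v ≤ p x ∧ η * mass b k p (nb k A i) v ≤ p y

/-- The formula of Hardy and Littlewood for the shifts `a 1, ..., a s` and the primes up to `N`: the
singular series converges, its sum `S` predicts the weighted number of prime tuples with an error of
at most `N / log ^ U N`, and, if the shifts are admissible, `S` is positive and `S N / log ^ (s + 1) N`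
predicts the number of prime tuples with a relative error of at most `ε`. -/
def Holds {s : ℕ} (ε : ℝ) (U N : ℕ) (a : Fin s → ℕ) : Prop :=
  ∃ S : ℝ, Filter.Tendsto (fun z => singZ (fun i => (a i : ℤ)) z) Filter.atTop (nhds S) ∧
    |tupleCount (fun i => (a i : ℤ)) N - S * N| ≤ (N : ℝ) / Real.log N ^ U ∧
    (Admissible (fun i => (a i : ℤ)) → 0 < S ∧
      |(primeTuples a N : ℝ) - S * (N / Real.log N ^ (s + 1))| ≤ ε * (S * (N / Real.log N ^ (s + 1))))

lemma field_conv {b k Δ : ℕ} {η : ℝ} {A : ℕ → ℕ → Prop} {p : ℕ → ℝ} (h : Field b k Δ η A p) :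
    Pool.Agent.N213.GF.Field b k Δ η A p :=
  ⟨h.symm, h.degree, h.nonneg, h.sum, h.markov, h.flexible⟩

open Classical in
/-- Let `s ≥ 1`, and let `b i ≥ 2`, `Δ i`, `η i > 0`, `κ i ≥ 1` for `i < s`, `B`, `U` and `ε > 0` be fixed. Let `N` be
large, let the numbers `k i` of digits satisfy `N / B ≤ b i ^ k i ≤ B N`, let `0 ≤ c i ≤ B N` be arbitrary integers, and
let `v 1, ..., v s` be independent random integers such that the `k i` digits of `v i` in base `b i` form a Markov random
field with flexible digits on an arbitrary graph `A i` of positions with degrees at most `Δ i` (`N` must be large, but not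
in terms of the graphs, of the distributions and of the `c i`). Then the formula of Hardy and Littlewood for the primes
`p ≤ N` and the tuple `p, p + c 1 + κ 1 * v 1, ..., p + c s + κ s * v s` holds with probability at least
`1 - 1 / log ^ U N`. -/
theorem result (s : ℕ) (hs : 1 ≤ s) (b Δ : Fin s → ℕ) (hb : ∀ i, 2 ≤ b i) (η : Fin s → ℝ) (hη : ∀ i, 0 < η i)
    (κ : Fin s → ℕ) (hκ : ∀ i, 1 ≤ κ i) (B U : ℕ) (ε : ℝ) (hε : 0 < ε) :
    ∃ N₀ : ℕ, ∀ N, N₀ ≤ N → ∀ k : Fin s → ℕ, (∀ i, b i ^ k i ≤ B * N ∧ N ≤ B * b i ^ k i) →
      ∀ c : Fin s → ℕ, (∀ i, c i ≤ B * N) → ∀ (A : Fin s → ℕ → ℕ → Prop) (p : Fin s → ℕ → ℝ),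
        (∀ i, Field (b i) (k i) (Δ i) (η i) (A i) (p i)) →
        ∑ v ∈ Fintype.piFinset (fun i => range (b i ^ k i)),
          (if Holds ε U N (fun i => c i + κ i * v i) then 0 else ∏ i, p i (v i)) ≤ 1 / Real.log N ^ U := by
  obtain ⟨N₀, h⟩ := Pool.Agent.N469.PT.ws_final s hs
    (fun i => Pool.Agent.N625.DY.Kc (b i) B (Pool.Agent.N213.GF.GC (b i) (Δ i) (η i))) κ hκ B U ε hε
    (fun i => Pool.Agent.N625.DY.cls_one (κ i) (Pool.Agent.N213.GF.gf_cls (b i) (Δ i) (η i) (hb i) (hη i) (κ i : ℤ)
      (by exact_mod_cast (by have := hκ i; omega : κ i ≠ 0))) B B _)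
  refine ⟨N₀, fun N hN k hk c hc A p hp => ?_⟩
  have h1 := h N hN (fun i => range (b i ^ k i)) p
    (fun i => ⟨k i, (hk i).1, (hk i).2, ⟨A i, field_conv (hp i)⟩, rfl⟩) c hc
  refine le_trans (le_of_eq ?_) h1
  apply sum_congr rfl
  intro v _
  by_cases hv : Holds ε U N (fun i => c i + κ i * v i)
  · have hv' : Pool.Agent.W93.TD.HLs ε U N (fun i => c i + κ i * v i) := hv
    rw [if_pos hv, if_neg (not_not.2 hv')]
  · have hv' : ¬ Pool.Agent.W93.TD.HLs ε U N (fun i => c i + κ i * v i) := hv
    rw [if_neg hv, if_pos hv']

end Pool.Agent.Results.MP_68a45e_nt.RandomFieldShifts
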