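import Pool.Agent.N213.GF.G
import Pool.Agent.N625.DY.I

/-!
# The totient form of Goldbach's conjecture near the integers given by a random field of digits on an arbitrary graph

Method: exponential sums over the integers whose digits form a Markov random field: averages over separated neighbourhoods
in the graph of positions. The passage from such exponential sums to Goldbach representations is from the starting files
(`Pool.Agent.TH872.An.windows_any`) and from `Pool.Agent.N625.DY.I` (helper625).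

Examples of random fields, proved in `Pool.Agent.N213.GF.E` and `Pool.Agent.N213.GF.F`: the uniform distribution on the
solutions of local constraints with flexible digits on a graph of positions with degrees at most `Δ`, with `η = 1 / b ^ (Δ + 1)`
(`unif_field`); in particular the integers whose nonzero digits form an independent set of the graph (`indep_local`), and,
for `b ≥ Δ + 2`, the integers whose digits are a proper colouring of the graph (`colour_local`).

Definition used: `Pool.Agent.H560R3.GB.sing m`: `2 C₂ ∏ (p - 1) / (p - 2)` over the primes `p > 2` dividing `m`, where `C₂` is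
the twin prime constant.
-/

set_option autoImplicit false

namespace Pool.Agent.Results.MP_967f73_nt.RandomFieldNeighbourhoods

open Finset Pool.Agent.H560R3.GB

/-- The digit of `v` at the position `i` in base `b` (the position `0` is the least significant one). -/
def dig (b v i : ℕ) : ℕ := v / b ^ i % b

/-- The integer which has the digits of `v` at the positions in `S` and the digits of `w` at the other positions below `k`. -/
def splice (b k : ℕ) (S : Finset ℕ) (v w : ℕ) : ℕ := ∑ i ∈ range k, (if i ∈ S then dig b v i else dig b w i) * b ^ i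

/-- `v` and `w` have the same digits outside the set `S` of positions. -/
def Off (b : ℕ) (S : Finset ℕ) (v w : ℕ) : Prop := ∀ i, i ∉ S → dig b v i = dig b w i

open Classical in
/-- The closed neighbourhood of the position `i` in the graph `A` on the positions `0, …, k - 1`. -/
noncomputable def nb (k : ℕ) (A : ℕ → ℕ → Prop) (i : ℕ) : Finset ℕ := (range k).filter fun j => j = i ∨ A i j

open Classical in
/-- The total weight of the integers below `b ^ k` which have the same digits as `v` outside `S`. -/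
noncomputable def mass (b k : ℕ) (p : ℕ → ℝ) (S : Finset ℕ) (v : ℕ) : ℝ :=
  ∑ w ∈ (range (b ^ k)).filter (fun w => Off b S w v), p w

/-- The digits of a random integer `v < b ^ k` (with the probabilities `p v`) form a Markov random field on a graph `A` of
positions with degrees at most `Δ` (the Markov property: for every set `S` of positions and all `v`, `w` which have the same
digits at the positions outside `S` adjacent to `S`, the product `p v * p w` does not change if `v` and `w` exchange their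
digits in `S`), and each digit is flexible: for every `v` with `p v ≠ 0` and every position `i`, there are `x` and `y` which
have the same digits as `v` outside the closed neighbourhood of `i`, which differ from each other exactly at the position
`i`, and whose conditional probabilities, given the digits outside this neighbourhood, are at least `η`. -/
structure Field (b k Δ : ℕ) (η : ℝ) (A : ℕ → ℕ → Prop) (p : ℕ → ℝ) : Prop where
  symm : ∀ i j, A i j → A j i
  degree : ∀ i < k, (nb k A i).card ≤ Δ + 1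
  nonneg : ∀ v, 0 ≤ p v
  sum : ∑ v ∈ range (b ^ k), p v = 1
  markov : ∀ S : Finset ℕ, ∀ v < b ^ k, ∀ w < b ^ k, (∀ i ∈ S, ∀ j < k, j ∉ S → A i j → dig b v j = dig b w j) →
    p v * p w = p (splice b k S v w) * p (splice b k S w v)
  flexible : ∀ v < b ^ k, p v ≠ 0 → ∀ i < k, ∃ x < b ^ k, ∃ y < b ^ k, Off b (nb k A i) x v ∧ Off b {i} y x ∧
    dig b y i ≠ dig b x i ∧ η * mass b k p (nb k A i) v ≤ p x ∧ η * mass b k p (nb k A i) v ≤ p y

/-- `x` is an integral solution of the system `φ(n - x) + 1 = n - x`, `φ(n + x) + 1 = n + x`. -/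
def IsSolution (n x : ℤ) : Prop :=
  1 ≤ n - x ∧ 1 ≤ n + x ∧ (Nat.totient (n - x).toNat : ℤ) + 1 = n - x ∧ (Nat.totient (n + x).toNat : ℤ) + 1 = n + x

open Classical in
/-- The number of integral solutions `x` of the system with `x₁ ≤ x < x₂`. -/
noncomputable def count (n x₁ x₂ : ℤ) : ℕ := ((Ico x₁ x₂).filter (fun x => IsSolution n x)).card

/-- In every window `[x₁, x₂)` with `-n ≤ x₁ < x₂ ≤ n` of a length of at least `2 n / log ^ A (2 n)` the system has an
integral solution `x`, and the number of these solutions is `sing (2 n) * (x₂ - x₁) / log ^ 2 (2 n)` up to a relative error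
of at most `ε`. -/
def Holds (ε : ℝ) (A : ℕ) (n : ℤ) : Prop :=
  ∀ x₁ x₂ : ℤ, -n ≤ x₁ → x₁ < x₂ → x₂ ≤ n → (2 * n : ℝ) / Real.log (2 * n) ^ A ≤ (x₂ : ℝ) - x₁ →
    (∃ x : ℤ, x₁ ≤ x ∧ x < x₂ ∧ IsSolution n x) ∧
    |(count n x₁ x₂ : ℝ) - sing (2 * n).toNat * ((x₂ : ℝ) - x₁) / Real.log (2 * n) ^ 2| ≤
      ε * (sing (2 * n).toNat * ((x₂ : ℝ) - x₁) / Real.log (2 * n) ^ 2)

lemma field_conv {b k Δ : ℕ} {η : ℝ} {A : ℕ → ℕ → Prop} {p : ℕ → ℝ} (h : Field b k Δ η A p) :
    Pool.Agent.N213.GF.Field b k Δ η A p :=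
  ⟨h.symm, h.degree, h.nonneg, h.sum, h.markov, h.flexible⟩

lemma tot_iff (m : ℤ) (hm : 1 ≤ m) : (Nat.totient m.toNat : ℤ) + 1 = m ↔ m.toNat.Prime := by
  rw [← Nat.totient_eq_iff_prime (by omega)]
  omega

lemma sol_iff (n : ℤ) (x : ℤ) : IsSolution n x ↔ (n - x).toNat.Prime ∧ (n + x).toNat.Prime := by
  unfold IsSolution
  constructor
  · rintro ⟨h1, h2, h3, h4⟩
    exact ⟨(tot_iff _ h1).1 h3, (tot_iff _ h2).1 h4⟩
  · rintro ⟨h1, h2⟩
    have h3 : 1 ≤ n - x := by have := h1.pos; omega
    have h4 : 1 ≤ n + x := by have := h2.pos; omega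
    exact ⟨h3, h4, (tot_iff _ h3).2 h1, (tot_iff _ h4).2 h2⟩

open Classical in
lemma count_eq (n x₁ x₂ : ℤ) (hn : 0 < n) (h1 : -n ≤ x₁) (h2 : x₂ ≤ n) :
    count n x₁ x₂ = Pool.Agent.W93.PG.cnt (2 * n).toNat (n - x₂).toNat (n - x₁).toNat := by
  unfold count Pool.Agent.W93.PG.cnt
  refine card_bij' (fun x _ => (n - x).toNat) (fun p _ => n - (p : ℤ)) ?_ ?_ ?_ ?_
  · intro x hx
    rw [mem_filter, mem_Ico, sol_iff] at hx
    obtain ⟨⟨a1, a2⟩, a3, a4⟩ := hx
    rw [mem_filter, mem_Ioc]
    refine ⟨⟨by omega, by omega⟩, a3, ?_⟩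
    have e : (2 * n).toNat - (n - x).toNat = (n + x).toNat := by omega
    rw [e]
    exact a4
  · intro p hp
    rw [mem_filter, mem_Ioc] at hp
    obtain ⟨⟨a1, a2⟩, a3, a4⟩ := hp
    rw [mem_filter, mem_Ico, sol_iff]
    have hp0 := a3.pos
    have e1 : (n - (n - (p : ℤ))).toNat = p := by omega
    have e2 : (n + (n - (p : ℤ))).toNat = (2 * n).toNat - p := by omega
    rw [e1, e2]
    exact ⟨⟨by omega, by omega⟩, a3, a4⟩
  · intro x hx
    rw [mem_filter, mem_Ico, sol_iff] at hx
    obtain ⟨⟨a1, a2⟩, a3, a4⟩ := hx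
    have := a3.pos
    omega
  · intro p hp
    omega

open Classical in
lemma holds_of (ε : ℝ) (A : ℕ) : ∃ m₀ : ℕ, ∀ m : ℕ, m₀ ≤ m → 2 ∣ m →
    Pool.Agent.W93.PG.WinP (min ε (1 / 2)) A m → Holds ε A (m / 2 : ℕ) := by
  obtain ⟨n1, h1⟩ := Pool.Agent.H373R2.T7.ev_L' 5
  refine ⟨n1 + 40, fun m hm hm2 hwin => ?_⟩
  have a1 := h1 m (by omega)
  obtain ⟨n, rfl⟩ := hm2
  have hn : 2 * n / 2 = n := by omega
  rw [hn]
  intro x₁ x₂ hx1 hx12 hx2 hlen
  have e0 : (2 * (n : ℤ)).toNat = 2 * n := by omega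
  have e1 : (2 * ((n : ℤ) : ℝ)) = ((2 * n : ℕ) : ℝ) := by push_cast; ring
  have hc := count_eq n x₁ x₂ (by omega) hx1 hx2
  have hs := Pool.Agent.W93.GB.one_le_sing (2 * n)
  rw [e0] at hc ⊢
  rw [e1] at hlen ⊢
  have hw := hwin (n - x₂ : ℤ).toNat (n - x₁ : ℤ).toNat (by omega) (by omega)
  have e2 : ((((n : ℤ) - x₁).toNat : ℕ) : ℝ) - ((((n : ℤ) - x₂).toNat : ℕ) : ℝ) = (x₂ : ℝ) - x₁ := by
    have q1 : ((((n : ℤ) - x₁).toNat : ℕ) : ℝ) = (((n : ℤ) - x₁ : ℤ) : ℝ) := by
      rw [← Int.cast_natCast, Int.toNat_of_nonneg (by omega)]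
    have q2 : ((((n : ℤ) - x₂).toNat : ℕ) : ℝ) = (((n : ℤ) - x₂ : ℤ) : ℝ) := by
      rw [← Int.cast_natCast, Int.toNat_of_nonneg (by omega)]
    rw [q1, q2]
    push_cast
    ring
  rw [e2, ← hc] at hw
  have hw' := hw hlen
  have hx0 : (0 : ℝ) < (x₂ : ℝ) - x₁ := by
    have : (x₁ : ℝ) < x₂ := by exact_mod_cast hx12
    linarith
  have hL : 0 < Real.log ((2 * n : ℕ) : ℝ) := by linarith
  have hmain : 0 < sing (2 * n) * ((x₂ : ℝ) - x₁) / Real.log ((2 * n : ℕ) : ℝ) ^ 2 := by
    have : 0 < sing (2 * n) := by linarith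
    positivity
  constructor
  · have h6 := hw'.trans (mul_le_mul_of_nonneg_right (min_le_right _ _) hmain.le)
    have h7 : (0 : ℝ) < count n x₁ x₂ := by
      rw [abs_le] at h6
      linarith [h6.1]
    have h8 : 0 < count n x₁ x₂ := by exact_mod_cast h7
    unfold count at h8
    rw [card_pos] at h8
    obtain ⟨x, hx⟩ := h8
    rw [mem_filter, mem_Ico] at hx
    exact ⟨x, hx.1.1, hx.1.2, hx.2⟩
  · exact hw'.trans (mul_le_mul_of_nonneg_right (min_le_left _ _) hmain.le)

open Classical in
/-- Let `b ≥ 2`, `Δ`, `η > 0`, `κ ≠ 0`, `B`, `A`, `W`, `U` and `ε > 0` be fixed. Let `k` be large, let `c` be an arbitrary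
integer with `|c| ≤ B b ^ k`, and let `v < b ^ k` be a random integer whose digits form a Markov random field with flexible
digits on an arbitrary graph of positions with degrees at most `Δ` (`k` must be large in terms of `b`, `Δ`, `η`, `κ`, `B`,
`A`, `W`, `U`, `ε`, but not in terms of the graph, the distribution and `c`). Then, with probability at least
`1 - 1 / k ^ U`, ALL the positive integers `n` at a distance of at most `k ^ W` from `c + κ v` have the following property:
the system `φ(n - x) + 1 = n - x`, `φ(n + x) + 1 = n + x` has an integral solution `x` in every window `[x₁, x₂)` with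
`-n ≤ x₁ < x₂ ≤ n` of a length of at least `2 n / log ^ A (2 n)`, and the number of these solutions is as predicted by Hardy
and Littlewood, up to a relative error of at most `ε`. -/
theorem result (b Δ : ℕ) (hb : 2 ≤ b) (η : ℝ) (hη : 0 < η) (κ : ℤ) (hκ : κ ≠ 0) (B A W U : ℕ) (ε : ℝ) (hε : 0 < ε) :
    ∃ k₀ : ℕ, ∀ k : ℕ, k₀ ≤ k → ∀ c : ℤ, |c| ≤ B * (b : ℤ) ^ k → ∀ (G : ℕ → ℕ → Prop) (p : ℕ → ℝ), Field b k Δ η G p →
      ∑ v ∈ range (b ^ k), (if (∀ n : ℤ, 0 < n → |n - (c + κ * (v : ℕ))| ≤ (k : ℤ) ^ W → Holds ε A n) then 0 else p v) ≤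
        1 / (k : ℝ) ^ U := by
  obtain ⟨m₀, hm⟩ := holds_of ε A
  obtain ⟨Q, hQ⟩ : ∃ Q : ℤ → Prop, Q = fun m => (0 < m ∧ Even m → Holds ε A (m.toNat / 2 : ℕ)) := ⟨_, rfl⟩
  obtain ⟨k₀, h0⟩ := Pool.Agent.N625.DY.cls_gold (Pool.Agent.N213.GF.gf_cls b Δ η hb hη (2 * κ) (by omega)) (2 * B) A (W + 1) U m₀
    (min ε (1 / 2)) (lt_min hε (by norm_num)) (fun m => Holds ε A (m / 2 : ℕ)) hm Q (fun y hy => by
      rw [hQ] at hy
      push Not at hy
      exact ⟨hy.1.1, hy.1.2, hy.2⟩)
  refine ⟨k₀ + 2, fun k hk c hc G p hp => ?_⟩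
  have h1 := h0 k (by omega) p ⟨G, field_conv hp⟩ (2 * c) (by
    rw [abs_mul]
    push_cast
    have : |(2 : ℤ)| = 2 := rfl
    rw [this]
    linarith)
  refine le_trans ?_ h1
  apply sum_le_sum
  intro v _
  have hpv : 0 ≤ p v := hp.nonneg v
  by_cases hv : ∀ n : ℤ, 0 < n → |n - (c + κ * (v : ℕ))| ≤ (k : ℤ) ^ W → Holds ε A n
  · rw [if_pos hv]
    split_ifs
    · exact le_rfl
    · exact hpv
  · rw [if_neg hv, if_neg]
    intro hall
    apply hv
    intro n hn hnd
    have h2 := hall (2 * n) (by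
      have e1 : 2 * n - (2 * c + 2 * κ * (v : ℕ)) = 2 * (n - (c + κ * (v : ℕ))) := by ring
      rw [e1, abs_mul, pow_succ]
      have e2 : |(2 : ℤ)| = 2 := rfl
      rw [e2]
      have e3 : (2 : ℤ) ≤ k := by exact_mod_cast (by omega : 2 ≤ k)
      have e4 : (0 : ℤ) ≤ (k : ℤ) ^ W := by positivity
      nlinarith)
    rw [hQ] at h2
    have h3 := h2 ⟨by omega, ⟨n, by ring⟩⟩
    have e5 : (((2 * n).toNat / 2 : ℕ) : ℤ) = n := by omega
    rw [e5] at h3
    exact h3

end Pool.Agent.Results.MP_967f73_nt.RandomFieldNeighbourhoods
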