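import Pool.Agent.N213.GF.G
import Pool.Agent.N625.DY.I
import Pool.Agent.Results.MP_bae66e_nt.PalindromeWindows

/-!
# The least prime summand near random integers with a random field of digits

All the even integers near a random integer whose digits form a Markov random field on an arbitrary graph of positions of
bounded degree.

Method: exponential sums over the integers whose digits form a Markov random field: averages over separated neighbourhoods
in the graph of positions. From the starting files: the circle method for the representations in windows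
(`Pool.Agent.W93.PG`, `Pool.Agent.TH872`), in a generic form: `Pool.Agent.N625.DY.I` (helper625).

Definitions used (in `Pool.Agent.H560R3.GB`): `C₂`: the twin prime constant `∏_{p > 2} (1 - 1 / (p - 1) ^ 2)`; `sing m`:
the singular series `2 C₂ ∏_{p ∣ m, p > 2} (p - 1) / (p - 2)`.

Examples of random fields, proved in `Pool.Agent.N213.GF.E` and `Pool.Agent.N213.GF.F`: the uniform distribution on the
solutions of local constraints with flexible digits on a graph of positions with degrees at most `Δ`, with `η = 1 / b ^ (Δ + 1)`
(`unif_field`); in particular the integers whose nonzero digits form an independent set of the graph (`indep_local`), and,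
for `b ≥ Δ + 2`, the integers whose digits are a proper colouring of the graph (`colour_local`).
-/

set_option autoImplicit false

namespace Pool.Agent.Results.MP_bae66e_nt.RandomFieldNeighbourhoods

open Finset Pool.Agent.H560R3.GB

/-- The digit of `v` at the position `i` in base `b` (the position `0` is the least significant one). -/
def dig (b v i : ℕ) : ℕ := v / b ^ i % b

/-- The integer which has the digits of `v` at the positions in `S` and the digits of `w` at the other positions below `k`. -/
def splice (b k : ℕ) (S : Finset ℕ) (v w : ℕ) : ℕ := ∑ i ∈ range k, (if i ∈ S then dig b v i else dig b w i) * b ^ i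

/-- `v` and `w` have the same digits outside the set `S` of positions. -/
def Off (b : ℕ) (S : Finset ℕ) (v w : ℕ) : Prop := ∀ i, i ∉ S → dig b v i = dig b w i

open Classical in
/-- The closed neighbourhood of the position `i` in the graph `A` on the positions `0, …, k - 1`. -/
noncomputable def nb (k : ℕ) (A : ℕ → ℕ → Prop) (i : ℕ) : Finset ℕ := (range k).filter fun j => j = i ∨ A i j

open Classical in
/-- The total weight of the integers below `b ^ k` which have the same digits as `v` outside `S`. -/
noncomputable def mass (b k : ℕ) (p : ℕ → ℝ) (S : Finset ℕ) (v : ℕ) : ℝ :=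
  ∑ w ∈ (range (b ^ k)).filter (fun w => Off b S w v), p w

/-- The digits of a random integer `v < b ^ k` (with the probabilities `p v`) form a Markov random field on a graph `A` of
positions with degrees at most `Δ` (the Markov property: for every set `S` of positions and all `v`, `w` which have the same
digits at the positions outside `S` adjacent to `S`, the product `p v * p w` does not change if `v` and `w` exchange their
digits in `S`), and each digit is flexible: for every `v` with `p v ≠ 0` and every position `i`, there are `x` and `y` which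
have the same digits as `v` outside the closed neighbourhood of `i`, which differ from each other exactly at the position
`i`, and whose conditional probabilities, given the digits outside this neighbourhood, are at least `η`. -/
structure Field (b k Δ : ℕ) (η : ℝ) (A : ℕ → ℕ → Prop) (p : ℕ → ℝ) : Prop where
  symm : ∀ i j, A i j → A j i
  degree : ∀ i < k, (nb k A i).card ≤ Δ + 1
  nonneg : ∀ v, 0 ≤ p v
  sum : ∑ v ∈ range (b ^ k), p v = 1
  markov : ∀ S : Finset ℕ, ∀ v < b ^ k, ∀ w < b ^ k, (∀ i ∈ S, ∀ j < k, j ∉ S → A i j → dig b v j = dig b w j) →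
    p v * p w = p (splice b k S v w) * p (splice b k S w v)
  flexible : ∀ v < b ^ k, p v ≠ 0 → ∀ i < k, ∃ x < b ^ k, ∃ y < b ^ k, Off b (nb k A i) x v ∧ Off b {i} y x ∧
    dig b y i ≠ dig b x i ∧ η * mass b k p (nb k A i) v ≤ p x ∧ η * mass b k p (nb k A i) v ≤ p y

/-- The number of primes `p` with `y₁ < p ≤ y₂` such that `m - p` is a prime. -/
def R (m y₁ y₂ : ℕ) : ℕ := ((Ioc y₁ y₂).filter (fun p => p.Prime ∧ (m - p).Prime)).card

/-- (1) There is a prime `p ≤ m / log ^ A m` such that `m - p` is a prime (thus `g(m) ≤ m / log ^ A m`
in the notation of the problem); (2) in every window `(y₁, y₂]` of a length of at least `m / log ^ A m`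
with `0 ≤ y₁ < y₂ ≤ m` the number of primes `p` such that `m - p` is a prime agrees with
`sing m * (y₂ - y₁) / log ^ 2 m` up to a relative error of at most `ε`. -/
def Holds (ε : ℝ) (A m : ℕ) : Prop :=
  (∃ p : ℕ, p.Prime ∧ (m - p).Prime ∧ (p : ℝ) ≤ m / Real.log m ^ A) ∧
  ∀ y₁ y₂ : ℕ, y₁ < y₂ → y₂ ≤ m → (m : ℝ) / Real.log m ^ A ≤ (y₂ : ℝ) - y₁ →
    |(R m y₁ y₂ : ℝ) - sing m * ((y₂ : ℝ) - y₁) / Real.log m ^ 2| ≤ ε * (sing m * ((y₂ : ℝ) - y₁) / Real.log m ^ 2)

lemma field_conv {b k Δ : ℕ} {η : ℝ} {A : ℕ → ℕ → Prop} {p : ℕ → ℝ} (h : Field b k Δ η A p) :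
    Pool.Agent.N213.GF.Field b k Δ η A p :=
  ⟨h.symm, h.degree, h.nonneg, h.sum, h.markov, h.flexible⟩

open Classical in
/-- Let `b ≥ 2`, `Δ`, `η > 0`, `κ ≠ 0`, `B`, `A`, `W`, `U` and `ε > 0` be fixed. Let `k` be large, let `c` be an arbitrary
integer with `|c| ≤ B b ^ k`, and let `v < b ^ k` be a random integer whose digits form a Markov random field with flexible
digits on an arbitrary graph of positions with degrees at most `Δ` (`k` must be large in terms of `b`, `Δ`, `η`, `κ`, `B`,
`A`, `W`, `U`, `ε`, but not in terms of the graph, the distribution and `c`). Then, with probability at least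
`1 - 1 / k ^ U`, ALL the even integers `y > 0` at a distance of at most `k ^ W` from `c + κ v` have the following property:
there is a prime `p ≤ y / log ^ A y` for which `y - p` is a prime (thus `g(y) ≤ y / log ^ A y` in the notation of the
problem), and in all windows of a length of at least `y / log ^ A y` the number of the primes `p` for which `y - p` is a
prime is as predicted, up to a relative error of at most `ε`. -/
theorem result (b Δ : ℕ) (hb : 2 ≤ b) (η : ℝ) (hη : 0 < η) (κ : ℤ) (hκ : κ ≠ 0) (B A W U : ℕ) (ε : ℝ) (hε : 0 < ε) :
    ∃ k₀ : ℕ, ∀ k : ℕ, k₀ ≤ k → ∀ c : ℤ, |c| ≤ B * (b : ℤ) ^ k → ∀ (G : ℕ → ℕ → Prop) (p : ℕ → ℝ), Field b k Δ η G p →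
      ∑ v ∈ range (b ^ k), (if (∀ y : ℤ, |y - (c + κ * (v : ℕ))| ≤ (k : ℤ) ^ W → 0 < y → Even y →
        Holds ε A y.toNat) then 0 else p v) ≤ 1 / (k : ℝ) ^ U := by
  obtain ⟨m₀, hm⟩ := MP_bae66e_nt.PalindromeWindows.holds_of A ε hε
  obtain ⟨k₀, h0⟩ := Pool.Agent.N625.DY.cls_gold (Pool.Agent.N213.GF.gf_cls b Δ η hb hη κ hκ) B (A + 1) W U m₀
    (min ε (1 / 2)) (lt_min hε (by norm_num))
    (Holds ε A) hm
    (fun y => 0 < y → Even y → Holds ε A y.toNat)
    (fun y hy => by
      push Not at hy
      exact hy)
  refine ⟨k₀, fun k hk c hc G p hp => ?_⟩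
  exact h0 k hk p ⟨G, field_conv hp⟩ c hc

end Pool.Agent.Results.MP_bae66e_nt.RandomFieldNeighbourhoods
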