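import Pool.Agent.N213.GF.G

/-!
# Joint correlations of the von Mangoldt and Liouville functions with shifts from a random field of digits on a graph

One Liouville factor is displaced by a random integer whose digits form a Markov random field on an arbitrary graph of
positions of bounded degree.

Method: exponential sums over the integers whose digits form a Markov random field: averages over separated neighbourhoods
in the graph of positions. From the starting files: the passage from such exponential sums to correlations
(`Pool.Agent.W93.AU`, `Pool.Agent.R459.LawNear`) and Davenport's theorem (`Pool.Agent.H807R2.Dav`); in a generic form: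
`Pool.Agent.N625.DY.K` (helper625).

Examples of random fields, proved in `Pool.Agent.N213.GF.E` and `Pool.Agent.N213.GF.F`: the uniform distribution on the
solutions of local constraints with flexible digits on a graph of positions with degrees at most `Δ`, with `η = 1 / b ^ (Δ + 1)`
(`unif_field`); in particular the integers whose nonzero digits form an independent set of the graph (`indep_local`), and,
for `b ≥ Δ + 2`, the integers whose digits are a proper colouring of the graph (`colour_local`).
-/

set_option autoImplicit false

namespace Pool.Agent.Results.MP_e6fa8b_nt.RandomFieldCorrelations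

open Finset

/-- The digit of `v` at the position `i` in base `b` (the position `0` is the least significant one). -/
def dig (b v i : ℕ) : ℕ := v / b ^ i % b

/-- The integer which has the digits of `v` at the positions in `S` and the digits of `w` at the other positions below `k`. -/
def splice (b k : ℕ) (S : Finset ℕ) (v w : ℕ) : ℕ := ∑ i ∈ range k, (if i ∈ S then dig b v i else dig b w i) * b ^ i

/-- `v` and `w` have the same digits outside the set `S` of positions. -/
def Off (b : ℕ) (S : Finset ℕ) (v w : ℕ) : Prop := ∀ i, i ∉ S → dig b v i = dig b w i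

open Classical in
/-- The closed neighbourhood of the position `i` in the graph `A` on the positions `0, …, k - 1`. -/
noncomputable def nb (k : ℕ) (A : ℕ → ℕ → Prop) (i : ℕ) : Finset ℕ := (range k).filter fun j => j = i ∨ A i j

open Classical in
/-- The total weight of the integers below `b ^ k` which have the same digits as `v` outside `S`. -/
noncomputable def mass (b k : ℕ) (p : ℕ → ℝ) (S : Finset ℕ) (v : ℕ) : ℝ :=
  ∑ w ∈ (range (b ^ k)).filter (fun w => Off b S w v), p w

/-- The digits of a random integer `v < b ^ k` (with the probabilities `p v`) form a Markov random field on a graph `A` of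
positions with degrees at most `Δ` (the Markov property: for every set `S` of positions and all `v`, `w` which have the same
digits at the positions outside `S` adjacent to `S`, the product `p v * p w` does not change if `v` and `w` exchange their
digits in `S`), and each digit is flexible: for every `v` with `p v ≠ 0` and every position `i`, there are `x` and `y` which
have the same digits as `v` outside the closed neighbourhood of `i`, which differ from each other exactly at the position
`i`, and whose conditional probabilities, given the digits outside this neighbourhood, are at least `η`. -/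
structure Field (b k Δ : ℕ) (η : ℝ) (A : ℕ → ℕ → Prop) (p : ℕ → ℝ) : Prop where
  symm : ∀ i j, A i j → A j i
  degree : ∀ i < k, (nb k A i).card ≤ Δ + 1
  nonneg : ∀ v, 0 ≤ p v
  sum : ∑ v ∈ range (b ^ k), p v = 1
  markov : ∀ S : Finset ℕ, ∀ v < b ^ k, ∀ w < b ^ k, (∀ i ∈ S, ∀ j < k, j ∉ S → A i j → dig b v j = dig b w j) →
    p v * p w = p (splice b k S v w) * p (splice b k S w v)
  flexible : ∀ v < b ^ k, p v ≠ 0 → ∀ i < k, ∃ x < b ^ k, ∃ y < b ^ k, Off b (nb k A i) x v ∧ Off b {i} y x ∧
    dig b y i ≠ dig b x i ∧ η * mass b k p (nb k A i) v ≤ p x ∧ η * mass b k p (nb k A i) v ≤ p y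

/-- The Liouville function on the integers, `0` at the integers `m ≤ 0`, with complex values. -/
noncomputable def lam (m : ℤ) : ℂ := if 1 ≤ m then (-1) ^ ArithmeticFunction.cardFactors m.toNat else 0

/-- All the shifts `y'` at a distance of at most `k ^ W` from `y` satisfy
`|∑ n ≤ x, θ l n * (∏ i, Λ (a l i * n + h l i)) * λ (α l * n + y')| ≤ N / k ^ U` for all `l` and all `x ≤ B N / α l`. -/
def Small (B U W N k : ℕ) {r L : ℕ} (α : Fin L → ℕ) (a h : Fin L → Fin r → ℕ) (θ : Fin L → ℕ → ℂ) (y : ℤ) : Prop :=
  ∀ y' : ℤ, |y' - y| ≤ (k : ℤ) ^ W → ∀ l, ∀ x : ℕ, α l * x ≤ B * N →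
    ‖∑ n ∈ Icc 1 x, θ l n * (∏ i, (ArithmeticFunction.vonMangoldt (a l i * n + h l i) : ℂ)) * lam (α l * n + y')‖ ≤
      N / (k : ℝ) ^ U

lemma field_conv {b k Δ : ℕ} {η : ℝ} {A : ℕ → ℕ → Prop} {p : ℕ → ℝ} (h : Field b k Δ η A p) :
    Pool.Agent.N213.GF.Field b k Δ η A p :=
  ⟨h.symm, h.degree, h.nonneg, h.sum, h.markov, h.flexible⟩

lemma lam_eq (m : ℤ) : lam m = (Pool.Agent.R459.Shift.lam m : ℂ) := by
  unfold lam Pool.Agent.R459.Shift.lam
  split_ifs <;> simp

lemma small_iff (B U W N k : ℕ) {r L : ℕ} (α : Fin L → ℕ) (a h : Fin L → Fin r → ℕ) (θ : Fin L → ℕ → ℂ) (y : ℤ) :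
    Small B U W N k α a h θ y ↔ Pool.Agent.N625.DY.Small B U W N k α a h θ y := by
  unfold Small Pool.Agent.N625.DY.Small
  simp only [lam_eq]

open Classical in
/-- Let `b ≥ 2`, `Δ`, `η > 0`, `r`, `κ ≠ 0`, `B`, `T`, `W` and `U` be fixed. Let `k` be large and let `c` be an integer with
`|c| ≤ B b ^ k`. For each of at most `k ^ T` indices `l` let `α l ≥ 1`, let `a l i n + h l i` for `i < r` be arbitrary linear
forms with non-negative coefficients `≤ b ^ (B k)`, and let `θ l : ℕ → ℂ` be an arbitrary function bounded by `1` (for
example a product of further values of the Liouville function). Let `v < b ^ k` be a random integer whose digits form a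
Markov random field with flexible digits on an arbitrary graph of positions with degrees at most `Δ` (`k` must be large in
terms of the fixed numbers only). Then, with probability at least `1 - 1 / k ^ U`, all the shifts `y'` at a distance of at
most `k ^ W` from `c + κ v` satisfy
`|∑ n ≤ x, θ l n * (∏ i, Λ (a l i * n + h l i)) * λ (α l * n + y')| ≤ b ^ k / k ^ U`
for all `l` and all `x ≤ B b ^ k / α l`. -/
theorem result (r b Δ : ℕ) (hb : 2 ≤ b) (η : ℝ) (hη : 0 < η) (κ : ℤ) (hκ : κ ≠ 0) (B T W U : ℕ) :
    ∃ k₀ : ℕ, ∀ k, k₀ ≤ k → ∀ c : ℤ, |c| ≤ B * (b : ℤ) ^ k →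
      ∀ L : ℕ, (L : ℝ) ≤ (k : ℝ) ^ T → ∀ (α : Fin L → ℕ) (a h : Fin L → Fin r → ℕ) (θ : Fin L → ℕ → ℂ),
        (∀ l, 1 ≤ α l) → (∀ l i, a l i ≤ b ^ (B * k) ∧ h l i ≤ b ^ (B * k)) → (∀ l n, ‖θ l n‖ ≤ 1) →
        ∀ (A : ℕ → ℕ → Prop) (p : ℕ → ℝ), Field b k Δ η A p →
        ∑ v ∈ range (b ^ k), (if Small B U W (b ^ k) k α a h θ (c + κ * (v : ℕ)) then 0 else p v) ≤ 1 / (k : ℝ) ^ U := by
  obtain ⟨k₀, h0⟩ := Pool.Agent.N625.DY.cls_joint (Pool.Agent.N213.GF.gf_cls b Δ η hb hη κ hκ) r B T W U
  refine ⟨k₀, fun k hk c hc L hL α a h θ hα hah hθ A p hp => ?_⟩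
  refine le_trans (le_of_eq ?_) (h0 k hk p ⟨A, field_conv hp⟩ c hc L hL α a h θ hα hah hθ)
  apply sum_congr rfl
  intro v _
  simp only [small_iff]

end Pool.Agent.Results.MP_e6fa8b_nt.RandomFieldCorrelations

/-
Claim file of this former hand-in (MP_e6fa8b_nt.RandomFieldCorrelations, helper213), moved here by helper675 with
the consent of the lead (ask 16170) in exchange for MP_e6fa8b_nt.FixedShiftsFewScales:

Proves: Fix b≥2, Δ, η>0, r, κ≠0, B, T, W, U. For large k, |c|≤B b^k, at most k^T systems of α_l≥1, linear forms a_{l,i}n+h_{l,i} (i<r, coefficients ≤b^(Bk)) and arbitrary θ_l bounded by 1, every graph of degrees ≤Δ on the digit positions and random v<b^k whose digits form a flexible Markov random field on it: with probability ≥1-1/k^U, |Σ_{n≤x} θ_l(n) ∏_i Λ(a_{l,i}n+h_{l,i}) λ(α_l n+y)| ≤ b^k/k^U for all y within k^W of c+κv, all l and all x≤B b^k/α_l.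
Definitions: dig b v i: digit i. nb: closed neighbourhood. Off b S v w: same digits outside S. splice: digits of v in S, of w elsewhere. mass: weight of the w agreeing with v outside S. Field: A symmetric, degrees ≤Δ, p≥0 of sum 1; p v·p w is unchanged when v,w agreeing on the boundary of S swap their digits in S; for p v≠0 and each i there are x,y agreeing with v outside nb i, differing exactly at i, with conditional probabilities ≥η. lam: Liouville function on the integers, 0 at m≤0. Small: the displayed bounds.
Relation: Partial answer to Q1 (case ℓ≥1): with one Liouville shift running through a wide class of sparse random integers and all other factors arbitrary and fixed in advance, the correlation is o(N) for almost all shifts, uniformly in the graph. Example (not part of the theorem): uniform law on solutions of local constraints. Earlier: automatic sets, random digits, nested words (N625). New: the class and its exponential sums.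
-/
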